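import Pool.Agent.U501.EP.Stm

/-!
# Project EP, package FL: uniform fluctuations of exponential sums with polynomial phases
-/

set_option autoImplicit false

namespace Pool.Agent.U978.EP.FL

open MeasureTheory ProbabilityTheory Finset Pool.Agent.U501.EP
open scoped ENNReal

theorem ee_eq (x : ℝ) : ee x = Complex.exp (Complex.I * ((2 * Real.pi * x : ℝ) : ℂ)) := by
  unfold ee
  congr 1
  push_cast
  ring

theorem ee_norm (x : ℝ) : ‖ee x‖ = 1 := by
  rw [ee_eq, Complex.norm_exp_I_mul_ofReal]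

theorem ee_cont : Continuous ee := by
  unfold ee
  fun_prop

theorem ee_sub_le (x y : ℝ) : ‖ee x - ee y‖ ≤ 2 * Real.pi * |x - y| := by
  have h1 : ee x = ee y * ee (x - y) := by
    rw [ee_eq, ee_eq, ee_eq, ← Complex.exp_add]
    congr 1
    push_cast
    ring
  have h2 : ee x - ee y = ee y * (ee (x - y) - 1) := by rw [h1]; ring
  rw [h2, norm_mul, ee_norm, one_mul, ee_eq]
  refine Real.norm_exp_I_mul_ofReal_sub_one_le.trans ?_
  rw [Real.norm_eq_abs, abs_mul, abs_of_pos (by positivity : (0 : ℝ) < 2 * Real.pi)]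

/-- the exponential sum minus its mean -/
noncomputable def W {Ω : Type} [MeasurableSpace Ω] (P : Measure Ω) (X : ℕ → Ω → ℝ) {k : ℕ} (q : Fin k → ℝ)
    (a a' b' : ℕ) (ω : Ω) : ℂ :=
  ∑ n ∈ Finset.Icc a' b', (ee (pol q ((n : ℝ) + X n ω - a)) - ∫ ω', ee (pol q ((n : ℝ) + X n ω' - a)) ∂P)

theorem pol_meas {k : ℕ} (q : Fin k → ℝ) : Measurable (pol q) := by
  unfold pol
  fun_prop

theorem W_meas {Ω : Type} [MeasurableSpace Ω] (P : Measure Ω) (X : ℕ → Ω → ℝ) (hX : ∀ n, Measurable (X n))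
    {k : ℕ} (q : Fin k → ℝ) (a a' b' : ℕ) : Measurable (W P X q a a' b') := by
  unfold W
  apply Finset.measurable_fun_sum
  intro n _
  apply Measurable.sub_const
  exact ee_cont.measurable.comp ((pol_meas q).comp (((hX n).const_add _).sub_const _))

theorem W_le {Ω : Type} [MeasurableSpace Ω] (P : Measure Ω) [IsProbabilityMeasure P] (X : ℕ → Ω → ℝ)
    {k : ℕ} (q : Fin k → ℝ) (a a' b' : ℕ) (ω : Ω) : ‖W P X q a a' b' ω‖ ≤ 2 * (Finset.Icc a' b').card := by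
  unfold W
  refine (norm_sum_le _ _).trans ?_
  have : ∀ n ∈ Finset.Icc a' b', ‖ee (pol q ((n : ℝ) + X n ω - a)) -
      ∫ ω', ee (pol q ((n : ℝ) + X n ω' - a)) ∂P‖ ≤ 2 := by
    intro n _
    refine (norm_sub_le _ _).trans ?_
    have h1 := ee_norm (pol q ((n : ℝ) + X n ω - a))
    have h2 : ‖∫ ω', ee (pol q ((n : ℝ) + X n ω' - a)) ∂P‖ ≤ 1 := by
      have h := norm_integral_le_of_norm_le_const (μ := P) (C := 1)
        (f := fun ω' => ee (pol q ((n : ℝ) + X n ω' - a)))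
        (Filter.Eventually.of_forall (fun ω => (ee_norm _).le))
      simpa using h
    linarith
  refine (Finset.sum_le_sum this).trans ?_
  simp [mul_comm]

/-- the moment bound -/
theorem moment (hM : S_M) (m : ℕ) : ∃ C : ℝ, 0 < C ∧ ∀ (Ω : Type) [MeasurableSpace Ω] (P : Measure Ω)
    [IsProbabilityMeasure P] (X : ℕ → Ω → ℝ), (∀ n, Measurable (X n)) → iIndepFun X P →
    ∀ (k : ℕ) (q : Fin k → ℝ) (a a' b' : ℕ),
      ∫ ω, ‖W P X q a a' b' ω‖ ^ (2 * m) ∂P ≤ C * ((Finset.Icc a' b').card : ℝ) ^ m := by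
  obtain ⟨C, hC, h⟩ := hM m
  refine ⟨C, hC, ?_⟩
  intro Ω _ P _ X hX hi k q a a' b'
  have hm : ∀ n : ℕ, Measurable fun x : ℝ => ee (pol q ((n : ℝ) + x - a)) := fun n =>
    ee_cont.measurable.comp ((pol_meas q).comp ((measurable_id.const_add _).sub_const _))
  exact h Ω P (fun n ω => ee (pol q ((n : ℝ) + X n ω - a))) (fun n => (hm n).comp (hX n))
    (hi.comp (fun (n : ℕ) (x : ℝ) => ee (pol q ((n : ℝ) + x - a))) hm) (fun n ω => (ee_norm _).le) _

/-- the parameters at level `N` -/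
noncomputable def Par (k E N : ℕ) : Finset (ℕ × ℕ × ℕ × (Fin k → ℤ)) :=
  Finset.range (2 * N + 1) ×ˢ Finset.range (2 * N + 1) ×ˢ Finset.range (2 * N + 1) ×ˢ
    Fintype.piFinset fun _ : Fin k => Finset.Icc (-(2 * (N : ℤ) ^ E)) (2 * (N : ℤ) ^ E)

theorem Par_card (k E N : ℕ) (hN : 1 ≤ N) : ((Par k E N).card : ℝ) ≤ 27 * 5 ^ k * (N : ℝ) ^ (3 + k * E) := by
  have h1 : (Par k E N).card = (2 * N + 1) * ((2 * N + 1) * ((2 * N + 1) * (4 * N ^ E + 1) ^ k)) := by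
    unfold Par
    rw [Finset.card_product, Finset.card_product, Finset.card_product, Finset.card_range,
      Fintype.card_piFinset]
    congr 3
    rw [Finset.prod_const, Int.card_Icc, Finset.card_univ, Fintype.card_fin]
    congr 1
    have : (2 * (N : ℤ) ^ E + 1 - -(2 * (N : ℤ) ^ E)) = ((4 * N ^ E + 1 : ℕ) : ℤ) := by
      push_cast
      ring
    rw [this, Int.toNat_natCast]
  have h2 : (Par k E N).card ≤ (3 * N) * ((3 * N) * ((3 * N) * (5 * N ^ E) ^ k)) := by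
    rw [h1]
    have hNE : 1 ≤ N ^ E := Nat.one_le_pow _ _ hN
    have a1 : 2 * N + 1 ≤ 3 * N := by omega
    have a2 : 4 * N ^ E + 1 ≤ 5 * N ^ E := by omega
    gcongr
  have h3 : (3 * N) * ((3 * N) * ((3 * N) * (5 * N ^ E) ^ k)) = 27 * 5 ^ k * N ^ (3 + k * E) := by
    rw [mul_pow, ← pow_mul, pow_add]
    ring
  rw [h3] at h2
  exact_mod_cast h2

/-- the normalised moment -/
noncomputable def gt {Ω : Type} [MeasurableSpace Ω] (P : Measure Ω) (X : ℕ → Ω → ℝ) (k B m : ℕ) (η : ℝ) (N : ℕ)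
    (t : ℕ × ℕ × ℕ × (Fin k → ℤ)) (ω : Ω) : ℝ :=
  ‖W P X (fun j => (t.2.2.2 j : ℝ) / (N : ℝ) ^ B) t.1 t.2.1 t.2.2.1 ω‖ ^ (2 * m) /
    (((Finset.Icc t.2.1 t.2.2.1).card : ℝ) ^ m * ((N : ℝ) ^ η) ^ (2 * m))

theorem gt_meas {Ω : Type} [MeasurableSpace Ω] (P : Measure Ω) (X : ℕ → Ω → ℝ) (hX : ∀ n, Measurable (X n))
    (k B m : ℕ) (η : ℝ) (N : ℕ) (t : ℕ × ℕ × ℕ × (Fin k → ℤ)) : Measurable (gt P X k B m η N t) := by
  unfold gt
  exact ((W_meas P X hX _ _ _ _).norm.pow_const _).div_const _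

theorem gt_nonneg {Ω : Type} [MeasurableSpace Ω] (P : Measure Ω) (X : ℕ → Ω → ℝ)
    (k B m : ℕ) (η : ℝ) (N : ℕ) (t : ℕ × ℕ × ℕ × (Fin k → ℤ)) (ω : Ω) : 0 ≤ gt P X k B m η N t ω := by
  unfold gt
  positivity

theorem gt_lint {Ω : Type} [MeasurableSpace Ω] (P : Measure Ω) [IsProbabilityMeasure P] (X : ℕ → Ω → ℝ)
    (hX : ∀ n, Measurable (X n)) (k B m : ℕ) (C : ℝ) (hC : 0 < C)
    (hmom : ∀ (q : Fin k → ℝ) (a a' b' : ℕ),
      ∫ ω, ‖W P X q a a' b' ω‖ ^ (2 * m) ∂P ≤ C * ((Finset.Icc a' b').card : ℝ) ^ m)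
    (η : ℝ) (N : ℕ) (t : ℕ × ℕ × ℕ × (Fin k → ℤ)) :
    ∫⁻ ω, ENNReal.ofReal (gt P X k B m η N t ω) ∂P ≤ ENNReal.ofReal (C / ((N : ℝ) ^ η) ^ (2 * m)) := by
  set q : Fin k → ℝ := fun j => (t.2.2.2 j : ℝ) / (N : ℝ) ^ B with hq
  have hint : Integrable (fun ω => ‖W P X q t.1 t.2.1 t.2.2.1 ω‖ ^ (2 * m)) P := by
    apply Integrable.of_bound ((W_meas P X hX q _ _ _).norm.pow_const _).aestronglyMeasurable
      ((2 * (Finset.Icc t.2.1 t.2.2.1).card : ℝ) ^ (2 * m))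
    refine Filter.Eventually.of_forall fun ω => ?_
    rw [Real.norm_eq_abs, abs_of_nonneg (by positivity)]
    exact pow_le_pow_left₀ (norm_nonneg _) (W_le P X q _ _ _ ω) _
  rw [← ofReal_integral_eq_lintegral_ofReal]
  · apply ENNReal.ofReal_le_ofReal
    have e : ∫ ω, gt P X k B m η N t ω ∂P = (∫ ω, ‖W P X q t.1 t.2.1 t.2.2.1 ω‖ ^ (2 * m) ∂P) /
        (((Finset.Icc t.2.1 t.2.2.1).card : ℝ) ^ m * ((N : ℝ) ^ η) ^ (2 * m)) := by
      unfold gt
      rw [integral_div]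
    rw [e]
    have h1 := hmom q t.1 t.2.1 t.2.2.1
    set c : ℝ := ((Finset.Icc t.2.1 t.2.2.1).card : ℝ) ^ m with hc
    have hc0 : 0 ≤ c := by positivity
    set w : ℝ := ((N : ℝ) ^ η) ^ (2 * m) with hw
    have hw0 : 0 ≤ w := by positivity
    rcases hc0.eq_or_lt with h | h
    · rw [← h]
      simp only [zero_mul, div_zero]
      positivity
    · rw [← div_div]
      apply div_le_div_of_nonneg_right _ hw0
      rw [div_le_iff₀ h]
      exact h1
  · unfold gt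
    exact hint.div_const _
  · exact Filter.Eventually.of_forall fun ω => gt_nonneg P X k B m η N t ω

/-- almost surely all normalised moments are bounded -/
theorem ae_bound (hM : S_M) {Ω : Type} [MeasurableSpace Ω] (P : Measure Ω) [IsProbabilityMeasure P]
    (X : ℕ → Ω → ℝ) (hX : ∀ n, Measurable (X n)) (hi : iIndepFun X P) (k B E : ℕ) (η : ℝ) (hη : 0 < η) :
    ∃ m : ℕ, 1 ≤ m ∧ ∀ᵐ ω ∂P, ∃ K : ℝ, 0 ≤ K ∧ ∀ N : ℕ, 1 ≤ N → ∀ t ∈ Par k E N, gt P X k B m η N t ω ≤ K := by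
  obtain ⟨m, hm⟩ := exists_nat_ge ((3 + k * E + 2 : ℕ) / (2 * η) + 1 : ℝ)
  have hm1 : 1 ≤ m := by
    have : (1 : ℝ) ≤ m := by
      refine le_trans ?_ hm
      have : (0 : ℝ) ≤ (3 + k * E + 2 : ℕ) / (2 * η) := by positivity
      linarith
    exact_mod_cast this
  have hm2 : ((3 + k * E + 2 : ℕ) : ℝ) ≤ η * (2 * m : ℕ) := by
    have h : (3 + k * E + 2 : ℕ) / (2 * η) ≤ (m : ℝ) := by linarith
    rw [div_le_iff₀ (by positivity)] at h
    push_cast at h ⊢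
    linarith
  refine ⟨m, hm1, ?_⟩
  obtain ⟨C, hC, hmom⟩ := moment hM m
  have hmom' := hmom Ω P X hX hi k
  set S : Ω → ℝ≥0∞ := fun ω => ∑' N : ℕ, ∑ t ∈ Par k E (N + 1), ENNReal.ofReal (gt P X k B m η (N + 1) t ω) with hS
  have hSm : ∀ N : ℕ, Measurable fun ω => ∑ t ∈ Par k E (N + 1), ENNReal.ofReal (gt P X k B m η (N + 1) t ω) := by
    intro N
    apply Finset.measurable_fun_sum
    intro t _
    exact (gt_meas P X hX k B m η (N + 1) t).ennreal_ofReal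
  have hSmeas : Measurable S := Measurable.tsum hSm
  have hfin : ∫⁻ ω, S ω ∂P ≠ ⊤ := by
    rw [hS, lintegral_tsum (fun N => (hSm N).aemeasurable)]
    have hterm : ∀ N : ℕ, ∫⁻ ω, ∑ t ∈ Par k E (N + 1), ENNReal.ofReal (gt P X k B m η (N + 1) t ω) ∂P ≤
        ENNReal.ofReal (27 * 5 ^ k * C * (1 / ((N : ℝ) + 1) ^ 2)) := by
      intro N
      rw [lintegral_finsetSum _ (fun t _ => (gt_meas P X hX k B m η (N + 1) t).ennreal_ofReal)]
      calc ∑ t ∈ Par k E (N + 1), ∫⁻ ω, ENNReal.ofReal (gt P X k B m η (N + 1) t ω) ∂P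
          ≤ ∑ _t ∈ Par k E (N + 1), ENNReal.ofReal (C / (((N + 1 : ℕ) : ℝ) ^ η) ^ (2 * m)) :=
            Finset.sum_le_sum fun t _ => gt_lint P X hX k B m C hC hmom' η (N + 1) t
        _ = ENNReal.ofReal (((Par k E (N + 1)).card : ℝ) * (C / (((N + 1 : ℕ) : ℝ) ^ η) ^ (2 * m))) := by
            rw [Finset.sum_const, nsmul_eq_mul, ENNReal.ofReal_mul (by positivity), ENNReal.ofReal_natCast]
        _ ≤ _ := by
            apply ENNReal.ofReal_le_ofReal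
            have h1 := Par_card k E (N + 1) (by omega)
            set x : ℝ := ((N + 1 : ℕ) : ℝ) with hx
            have hx1 : 1 ≤ x := by rw [hx]; push_cast; linarith [(Nat.cast_nonneg N : (0 : ℝ) ≤ N)]
            have hx0 : 0 < x := by linarith
            have h2 : x ^ (3 + k * E + 2) ≤ (x ^ η) ^ (2 * m) := by
              rw [← Real.rpow_mul_natCast hx0.le, ← Real.rpow_natCast]
              exact Real.rpow_le_rpow_of_exponent_le hx1 hm2
            have h3 : (N : ℝ) + 1 = x := by rw [hx]; push_cast; ring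
            rw [h3]
            have hp : 0 < x ^ (3 + k * E + 2) := by positivity
            calc ((Par k E (N + 1)).card : ℝ) * (C / (x ^ η) ^ (2 * m))
                ≤ (27 * 5 ^ k * x ^ (3 + k * E)) * (C / x ^ (3 + k * E + 2)) := by
                  gcongr
              _ = 27 * 5 ^ k * C * (1 / x ^ 2) := by
                  rw [pow_add x (3 + k * E) 2]
                  field_simp
    refine ne_top_of_le_ne_top ?_ (ENNReal.tsum_le_tsum hterm)
    have hsum : Summable fun N : ℕ => 27 * 5 ^ k * C * (1 / ((N : ℝ) + 1) ^ 2) := by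
      apply Summable.mul_left
      have := (summable_nat_add_iff 1).2 (Real.summable_one_div_nat_pow.2 (by norm_num : 1 < 2))
      refine this.congr fun N => ?_
      push_cast
      rfl
    rw [← ENNReal.ofReal_tsum_of_nonneg (fun N => by positivity) hsum]
    exact ENNReal.ofReal_ne_top
  filter_upwards [ae_lt_top hSmeas hfin] with ω hω
  refine ⟨(S ω).toReal, ENNReal.toReal_nonneg, ?_⟩
  intro N hN t ht
  obtain ⟨N, rfl⟩ : ∃ N', N = N' + 1 := ⟨N - 1, by omega⟩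
  have h1 : ENNReal.ofReal (gt P X k B m η (N + 1) t ω) ≤ S ω := by
    calc ENNReal.ofReal (gt P X k B m η (N + 1) t ω)
        ≤ ∑ t ∈ Par k E (N + 1), ENNReal.ofReal (gt P X k B m η (N + 1) t ω) :=
          Finset.single_le_sum (f := fun t => ENNReal.ofReal (gt P X k B m η (N + 1) t ω)) (fun _ _ => zero_le) ht
      _ ≤ S ω := ENNReal.le_tsum (f := fun N => ∑ t ∈ Par k E (N + 1), ENNReal.ofReal (gt P X k B m η (N + 1) t ω)) N
  rw [← ENNReal.ofReal_le_iff_le_toReal hω.ne]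
  exact h1

/-- from the normalised moment to the sum -/
theorem from_gt {Ω : Type} [MeasurableSpace Ω] (P : Measure Ω) (X : ℕ → Ω → ℝ) (k B m : ℕ) (hm : 1 ≤ m)
    (η : ℝ) (N : ℕ) (hN : 1 ≤ N) (a a' b' : ℕ) (hab : a' ≤ b') (z : Fin k → ℤ) (ω : Ω) (K : ℝ) (hK0 : 0 ≤ K)
    (h : gt P X k B m η N (a, a', b', z) ω ≤ K) :
    ‖W P X (fun j => (z j : ℝ) / (N : ℝ) ^ B) a a' b' ω‖ ≤
      (K + 1) * (((b' : ℝ) - a' + 1) ^ (1 / 2 : ℝ) * (N : ℝ) ^ η) := by
  have hcard : ((Finset.Icc a' b').card : ℝ) = (b' : ℝ) - a' + 1 := by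
    rw [Nat.card_Icc, Nat.cast_sub (by omega)]
    push_cast
    ring
  have hl : (1 : ℝ) ≤ (b' : ℝ) - a' + 1 := by
    have : (a' : ℝ) ≤ b' := by exact_mod_cast hab
    linarith
  set l : ℝ := (b' : ℝ) - a' + 1 with hldef
  have hl0 : 0 < l := by linarith
  have hN0 : (0 : ℝ) < N := by exact_mod_cast hN
  unfold gt at h
  simp only at h
  rw [hcard] at h
  set V : ℝ := ‖W P X (fun j => (z j : ℝ) / (N : ℝ) ^ B) a a' b' ω‖ with hV
  set w : ℝ := (N : ℝ) ^ η with hw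
  have hw0 : 0 < w := Real.rpow_pos_of_pos hN0 _
  rw [div_le_iff₀ (by positivity)] at h
  have hsq : (l ^ (1 / 2 : ℝ)) ^ (2 * m) = l ^ m := by
    rw [pow_mul, ← Real.sqrt_eq_rpow, Real.sq_sqrt hl0.le]
  have hK1 : K ≤ (K + 1) ^ (2 * m) := by
    have h1 : (1 : ℝ) ≤ K + 1 := by linarith
    calc K ≤ K + 1 := by linarith
      _ = (K + 1) ^ 1 := (pow_one _).symm
      _ ≤ (K + 1) ^ (2 * m) := pow_le_pow_right₀ h1 (by omega)
  have h2 : V ^ (2 * m) ≤ ((K + 1) * (l ^ (1 / 2 : ℝ) * w)) ^ (2 * m) := by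
    rw [mul_pow, mul_pow, hsq]
    refine h.trans ?_
    gcongr
  exact (pow_le_pow_iff_left₀ (norm_nonneg _) (by positivity) (by omega)).1 h2

theorem pol_sub_le {k : ℕ} (q q' : Fin k → ℝ) (N : ℕ) (hN : 1 ≤ N)
    (hq : ∀ j, |q j - q' j| ≤ 1 / (N : ℝ) ^ (k + 1)) (x : ℝ) (hx0 : 0 ≤ x) (hx : x ≤ 3 * N) :
    |pol q x - pol q' x| ≤ k * 3 ^ k / N := by
  have hN0 : (0 : ℝ) < N := by exact_mod_cast hN
  have hN1 : (1 : ℝ) ≤ N := by exact_mod_cast hN
  unfold pol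
  rw [← Finset.sum_sub_distrib]
  refine (Finset.abs_sum_le_sum_abs _ _).trans ?_
  have hterm : ∀ j ∈ (Finset.univ : Finset (Fin k)), |q j * x ^ (j : ℕ) - q' j * x ^ (j : ℕ)| ≤ 3 ^ k / N := by
    intro j _
    rw [← sub_mul, abs_mul, abs_of_nonneg (pow_nonneg hx0 _)]
    have h1 : x ^ (j : ℕ) ≤ (3 * N) ^ k := by
      calc x ^ (j : ℕ) ≤ (3 * (N : ℝ)) ^ (j : ℕ) := pow_le_pow_left₀ hx0 hx _
        _ ≤ (3 * (N : ℝ)) ^ k := pow_le_pow_right₀ (by linarith) j.2.le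
    calc |q j - q' j| * x ^ (j : ℕ) ≤ (1 / (N : ℝ) ^ (k + 1)) * (3 * N) ^ k := by
          gcongr
          exact hq j
      _ = 3 ^ k / N := by
          rw [mul_pow, pow_succ]
          field_simp
  refine (Finset.sum_le_sum hterm).trans ?_
  rw [Finset.sum_const, Finset.card_univ, Fintype.card_fin, nsmul_eq_mul]
  rw [mul_div_assoc]

theorem W_sub_le {Ω : Type} [MeasurableSpace Ω] (P : Measure Ω) [IsProbabilityMeasure P] (X : ℕ → Ω → ℝ)
    (hX : ∀ n, Measurable (X n)) (h01 : ∀ n ω, 0 ≤ X n ω ∧ X n ω ≤ 1) {k : ℕ} (q q' : Fin k → ℝ) (N : ℕ)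
    (hN : 1 ≤ N) (hq : ∀ j, |q j - q' j| ≤ 1 / (N : ℝ) ^ (k + 1)) (a a' b' : ℕ) (haN : N ≤ a) (haa : a ≤ a')
    (hb : b' ≤ 2 * N) (ω : Ω) :
    ‖W P X q a a' b' ω - W P X q' a a' b' ω‖ ≤ 8 * Real.pi * (k * 3 ^ k) := by
  have hN0 : (0 : ℝ) < N := by exact_mod_cast hN
  have hN1 : (1 : ℝ) ≤ N := by exact_mod_cast hN
  have hpt : ∀ n ∈ Finset.Icc a' b', ∀ ω : Ω,
      ‖ee (pol q ((n : ℝ) + X n ω - a)) - ee (pol q' ((n : ℝ) + X n ω - a))‖ ≤
        2 * Real.pi * (k * 3 ^ k / N) := by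
    intro n hn ω
    rw [Finset.mem_Icc] at hn
    have h1 : (a : ℝ) ≤ n := by exact_mod_cast haa.trans hn.1
    have h2 : (n : ℝ) ≤ 2 * N := by exact_mod_cast hn.2.trans hb
    have h3 : (N : ℝ) ≤ a := by exact_mod_cast haN
    have h4 := h01 n ω
    refine (ee_sub_le _ _).trans ?_
    have := pol_sub_le q q' N hN hq ((n : ℝ) + X n ω - a) (by linarith) (by linarith)
    gcongr
  have hint : ∀ (q : Fin k → ℝ) (n : ℕ), Integrable (fun ω => ee (pol q ((n : ℝ) + X n ω - a))) P := by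
    intro q n
    apply Integrable.of_bound (C := 1)
    · exact (ee_cont.measurable.comp ((pol_meas q).comp
        (((hX n).const_add _).sub_const _))).aestronglyMeasurable
    · exact Filter.Eventually.of_forall fun ω => (ee_norm _).le
  unfold W
  rw [← Finset.sum_sub_distrib]
  refine (norm_sum_le _ _).trans ?_
  have hterm : ∀ n ∈ Finset.Icc a' b',
      ‖(ee (pol q ((n : ℝ) + X n ω - a)) - ∫ ω', ee (pol q ((n : ℝ) + X n ω' - a)) ∂P) -
        (ee (pol q' ((n : ℝ) + X n ω - a)) - ∫ ω', ee (pol q' ((n : ℝ) + X n ω' - a)) ∂P)‖ ≤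
        4 * Real.pi * (k * 3 ^ k / N) := by
    intro n hn
    have e : (ee (pol q ((n : ℝ) + X n ω - a)) - ∫ ω', ee (pol q ((n : ℝ) + X n ω' - a)) ∂P) -
        (ee (pol q' ((n : ℝ) + X n ω - a)) - ∫ ω', ee (pol q' ((n : ℝ) + X n ω' - a)) ∂P) =
        (ee (pol q ((n : ℝ) + X n ω - a)) - ee (pol q' ((n : ℝ) + X n ω - a))) -
        ∫ ω', (ee (pol q ((n : ℝ) + X n ω' - a)) - ee (pol q' ((n : ℝ) + X n ω' - a))) ∂P := by
      rw [integral_sub (hint q n) (hint q' n)]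
      ring
    rw [e]
    refine (norm_sub_le _ _).trans ?_
    have h1 := hpt n hn ω
    have h2 : ‖∫ ω', (ee (pol q ((n : ℝ) + X n ω' - a)) - ee (pol q' ((n : ℝ) + X n ω' - a))) ∂P‖ ≤
        2 * Real.pi * (k * 3 ^ k / N) := by
      have h := norm_integral_le_of_norm_le_const (μ := P) (C := 2 * Real.pi * (k * 3 ^ k / N))
        (f := fun ω' => (ee (pol q ((n : ℝ) + X n ω' - a)) - ee (pol q' ((n : ℝ) + X n ω' - a))))
        (Filter.Eventually.of_forall (fun ω => hpt n hn ω))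
      simpa using h
    linarith
  refine (Finset.sum_le_sum hterm).trans ?_
  rw [Finset.sum_const, nsmul_eq_mul]
  have hc : ((Finset.Icc a' b').card : ℝ) ≤ 2 * N := by
    have : (Finset.Icc a' b').card ≤ 2 * N := by
      rw [Nat.card_Icc]
      omega
    exact_mod_cast this
  calc ((Finset.Icc a' b').card : ℝ) * (4 * Real.pi * (k * 3 ^ k / N)) ≤
      (2 * N) * (4 * Real.pi * (k * 3 ^ k / N)) := by gcongr
    _ = 8 * Real.pi * (k * 3 ^ k) := by
        field_simp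
        ring

/-- package FL -/
theorem t_FL (hM : S_M) : S_FL := by
  intro Ω _ P _ X hX hi h01 k D η hη
  obtain ⟨m, hm1, hae⟩ := ae_bound hM P X hX hi k (k + 1) (D + (k + 1)) η hη
  filter_upwards [hae] with ω hω
  obtain ⟨K, hK0, hK⟩ := hω
  refine ⟨(K + 1) + 8 * Real.pi * (k * 3 ^ k), ?_⟩
  intro N a a' b' hN haN haa hab hb q hq
  have hN0 : (0 : ℝ) < N := by exact_mod_cast hN
  have hN1 : (1 : ℝ) ≤ N := by exact_mod_cast hN
  set z : Fin k → ℤ := fun j => ⌊q j * (N : ℝ) ^ (k + 1)⌋ with hz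
  set q' : Fin k → ℝ := fun j => (z j : ℝ) / (N : ℝ) ^ (k + 1) with hq'
  have hP : (0 : ℝ) < (N : ℝ) ^ (k + 1) := by positivity
  have hqq : ∀ j, |q j - q' j| ≤ 1 / (N : ℝ) ^ (k + 1) := by
    intro j
    have h1 := Int.floor_le (q j * (N : ℝ) ^ (k + 1))
    have h2 := Int.lt_floor_add_one (q j * (N : ℝ) ^ (k + 1))
    have e : q j - q' j = (q j * (N : ℝ) ^ (k + 1) - (z j : ℝ)) / (N : ℝ) ^ (k + 1) := by
      rw [hq']
      field_simp
    rw [e, abs_div, abs_of_pos hP]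
    apply div_le_div_of_nonneg_right _ hP.le
    rw [abs_le]
    constructor <;> simp only [hz] <;> linarith
  have hzb : ∀ j, z j ∈ Finset.Icc (-(2 * (N : ℤ) ^ (D + (k + 1)))) (2 * (N : ℤ) ^ (D + (k + 1))) := by
    intro j
    have h1 := Int.floor_le (q j * (N : ℝ) ^ (k + 1))
    have h2 := Int.lt_floor_add_one (q j * (N : ℝ) ^ (k + 1))
    have h3 : |q j * (N : ℝ) ^ (k + 1)| ≤ (N : ℝ) ^ (D + (k + 1)) := by
      rw [abs_mul, abs_of_pos hP, pow_add (N : ℝ) D]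
      exact mul_le_mul_of_nonneg_right (hq j) hP.le
    rw [abs_le] at h3
    have h4 : (1 : ℝ) ≤ (N : ℝ) ^ (D + (k + 1)) := one_le_pow₀ hN1
    rw [Finset.mem_Icc]
    constructor
    · have : (-(2 * (N : ℝ) ^ (D + (k + 1)))) ≤ (z j : ℝ) := by simp only [hz]; linarith [h3.1]
      exact_mod_cast this
    · have : (z j : ℝ) ≤ 2 * (N : ℝ) ^ (D + (k + 1)) := by simp only [hz]; linarith [h3.2]
      exact_mod_cast this
  have ht : (a, a', b', z) ∈ Par k (D + (k + 1)) N := by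
    unfold Par
    simp only [Finset.mem_product, Finset.mem_range, Fintype.mem_piFinset]
    exact ⟨by omega, by omega, by omega, hzb⟩
  have h1 := from_gt P X k (k + 1) m hm1 η N hN a a' b' hab z ω K hK0 (hK N hN _ ht)
  have h2 := W_sub_le P X hX h01 q q' N hN hqq a a' b' haN haa hb ω
  have hl : (1 : ℝ) ≤ (b' : ℝ) - a' + 1 := by
    have : (a' : ℝ) ≤ b' := by exact_mod_cast hab
    linarith
  have h3 : (1 : ℝ) ≤ ((b' : ℝ) - a' + 1) ^ (1 / 2 : ℝ) * (N : ℝ) ^ η :=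
    one_le_mul_of_one_le_of_one_le (Real.one_le_rpow hl (by norm_num)) (Real.one_le_rpow hN1 hη.le)
  have hk0 : (0 : ℝ) ≤ 8 * Real.pi * (k * 3 ^ k) := by positivity
  show ‖W P X q a a' b' ω‖ ≤ _
  calc ‖W P X q a a' b' ω‖ = ‖W P X q' a a' b' ω + (W P X q a a' b' ω - W P X q' a a' b' ω)‖ := by
        congr 1
        ring
    _ ≤ ‖W P X q' a a' b' ω‖ + ‖W P X q a a' b' ω - W P X q' a a' b' ω‖ := norm_add_le _ _
    _ ≤ (K + 1) * (((b' : ℝ) - a' + 1) ^ (1 / 2 : ℝ) * (N : ℝ) ^ η) + 8 * Real.pi * (k * 3 ^ k) :=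
        add_le_add h1 h2
    _ ≤ (K + 1) * (((b' : ℝ) - a' + 1) ^ (1 / 2 : ℝ) * (N : ℝ) ^ η) +
        8 * Real.pi * (k * 3 ^ k) * (((b' : ℝ) - a' + 1) ^ (1 / 2 : ℝ) * (N : ℝ) ^ η) := by
        have := mul_le_mul_of_nonneg_left h3 hk0
        linarith
    _ = _ := by ring

end Pool.Agent.U978.EP.FL
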